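import Pool.Agent.H334HI.Visits
import Pool.Agent.H160R2.SA.Arm

/-!
Critical bond percolation on the square lattice (`p = 1/2`) in the half-plane `y ≥ 1`, with the left
half `x ≤ 0` of the boundary line `y = 1` wired: factorial moments and tails of the number of the
vertices `(1, 1), …, (n, 1)` of the boundary line in the wired cluster.

The exploration path which starts at the right end of the wired half-line is the common boundary of
the wired cluster and of the dual clusters attached to the right half of the boundary line, so this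
is the number of the boundary vertices which it visits at distance at most `n` from its starting
point. The number is of the order `n ^ (2/3)`, and the probability that it is at least
`t n ^ (2/3)` is `exp (- Θ (t ^ 3))`, uniformly in `n` and in `1 ≤ t ≤ n ^ (1/3)` (it is at most
`n = n ^ (1/3) n ^ (2/3)`).
-/

set_option autoImplicit false

namespace Pool.Agent.Results.MP_fe58d8_pr.BoundaryVisits

open MeasureTheory Finset

/-- The square lattice: two points of `ℤ²` are adjacent when they differ by one in exactly one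
coordinate. -/
def Z2 : SimpleGraph (ℤ × ℤ) where
  Adj u v := |u.1 - v.1| + |u.2 - v.2| = 1
  symm := ⟨fun u v h => by rw [abs_sub_comm v.1, abs_sub_comm v.2]; exact h⟩
  loopless := ⟨fun u h => by simp at h⟩

/-- Critical bond percolation: every edge of the square lattice is open (`true`) with
probability `1/2`, independently of the other edges. -/
noncomputable def crit : Measure (Z2.edgeSet → Bool) :=
  Measure.infinitePi (fun _ => ProbabilityTheory.bernoulliMeasure true false
    ⟨1/2, by norm_num, by norm_num⟩)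

/-- The graph of the open edges with both endpoints in the half-plane `y ≥ 1`. -/
def openGraph (ω : Z2.edgeSet → Bool) : SimpleGraph (ℤ × ℤ) :=
  SimpleGraph.fromEdgeSet
    {e | (∃ h : e ∈ Z2.edgeSet, ω ⟨e, h⟩ = true) ∧ ∀ v ∈ e, 1 ≤ v.2}

/-- The vertex `v` is joined to the boundary half-line `x ≤ 0`, `y = 1` by an open path of the
half-plane. -/
def Wired (ω : Z2.edgeSet → Bool) (v : ℤ × ℤ) : Prop :=
  ∃ u : ℤ, u ≤ 0 ∧ (openGraph ω).Reachable (u, 1) v

open Classical in
/-- The number of the vertices `(1, 1), …, (n, 1)` in the wired cluster. -/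
noncomputable def visits (n : ℕ) (ω : Z2.edgeSet → Bool) : ℕ :=
  ((range n).filter (fun i : ℕ => Wired ω ((i : ℤ) + 1, 1))).card

theorem openGraph_adj (ω : Z2.edgeSet → Bool) (u v : ℤ × ℤ) :
    (openGraph ω).Adj u v ↔ H974.Adj (H974.opn ω ∩ TH976.dE TH976.DH) u v := by
  have hvert : ∀ v : ℤ × ℤ, v ∈ TH976.DH ↔ 1 ≤ v.2 := fun v => Iff.rfl
  unfold openGraph
  rw [SimpleGraph.fromEdgeSet_adj]
  constructor
  · rintro ⟨⟨⟨h, hω⟩, hV⟩, hne⟩
    have hadj : (H974.openGraph ω).Adj u v := by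
      unfold H974.openGraph
      rw [SimpleGraph.fromEdgeSet_adj]
      exact ⟨⟨h, hω⟩, hne⟩
    obtain ⟨e, he, hcase⟩ := (H974.openGraph_adj ω u v).mp hadj
    have hu : u ∈ TH976.DH := (hvert u).mpr (hV u (Sym2.mem_mk_left u v))
    have hv : v ∈ TH976.DH := (hvert v).mpr (hV v (Sym2.mem_mk_right u v))
    refine ⟨e, ⟨he, ?_⟩, hcase⟩
    rcases hcase with ⟨h1, h2⟩ | ⟨h1, h2⟩
    · exact ⟨by rw [h1]; exact hu, by rw [h2]; exact hv⟩
    · exact ⟨by rw [h1]; exact hv, by rw [h2]; exact hu⟩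
  · rintro ⟨e, ⟨he, hV⟩, hcase⟩
    have hadj : (H974.openGraph ω).Adj u v := (H974.openGraph_adj ω u v).mpr ⟨e, he, hcase⟩
    unfold H974.openGraph at hadj
    rw [SimpleGraph.fromEdgeSet_adj] at hadj
    refine ⟨⟨hadj.1, ?_⟩, hadj.2⟩
    intro w hw
    rw [← hvert]
    rcases Sym2.mem_iff.mp hw with rfl | rfl
    · rcases hcase with ⟨h1, h2⟩ | ⟨h1, h2⟩
      · rw [← h1]; exact hV.1
      · rw [← h2]; exact hV.2
    · rcases hcase with ⟨h1, h2⟩ | ⟨h1, h2⟩
      · rw [← h2]; exact hV.2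
      · rw [← h1]; exact hV.1

theorem reach (ω : Z2.edgeSet → Bool) (u v : ℤ × ℤ) : (openGraph ω).Reachable u v ↔
    H974.Reach (H974.opn ω ∩ TH976.dE TH976.DH) u v := by
  rw [SimpleGraph.reachable_iff_reflTransGen]
  have : (openGraph ω).Adj = H974.Adj (H974.opn ω ∩ TH976.dE TH976.DH) := by
    funext u v
    exact propext (openGraph_adj ω u v)
  rw [this]
  rfl

theorem wired_iff (ω : Z2.edgeSet → Bool) (i : ℕ) :
    Wired ω ((i : ℤ) + 1, 1) ↔ ω ∈ H334HI.WE i := by
  constructor
  · rintro ⟨u, hu, h⟩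
    exact ⟨(u, 1), ⟨rfl, hu⟩, (reach ω _ _).mp h⟩
  · rintro ⟨u, ⟨hu1, hu2⟩, h⟩
    refine ⟨u.1, hu2, ?_⟩
    have e : ((u.1, 1) : ℤ × ℤ) = u := by rw [← hu1]
    rw [e]
    exact (reach ω _ _).mpr h

theorem visits_eq (n : ℕ) (ω : Z2.edgeSet → Bool) :
    visits n ω = H334HI.NN H334HI.WE n ω := by
  classical
  unfold visits H334HI.NN
  congr 1
  apply Finset.filter_congr
  intro i _
  exact wired_iff ω i

/-- **The number of the boundary vertices in the wired cluster.** There is a constant `C` such that: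
(1) for `1 ≤ k ≤ n` the expectation of the number of `k`-element subsets of the set of the vertices
`(1, 1), …, (n, 1)` in the wired cluster is `((n / k) ^ (2/3)) ^ k` up to the factor `C ^ k`;
(2) for all `n ≥ 1` and `t > 0` the probability that at least `t n ^ (2/3)` of these vertices are in
the wired cluster is at most `C exp (- t ^ 3 / C)`;
(3) for all `n ≥ 1` and `1 ≤ t ≤ n ^ (1/3)` it is at least `exp (- C t ^ 3)`. -/
theorem result : ∃ C : ℝ, 1 ≤ C ∧
    (∀ n : ℕ, Measurable (visits n)) ∧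
    (∀ k n : ℕ, 1 ≤ k → k ≤ n →
      (C ^ k)⁻¹ * (((n : ℝ) / k) ^ (2 / 3 : ℝ)) ^ k ≤ ∫ ω, ((visits n ω).choose k : ℝ) ∂crit ∧
      ∫ ω, ((visits n ω).choose k : ℝ) ∂crit ≤ C ^ k * (((n : ℝ) / k) ^ (2 / 3 : ℝ)) ^ k) ∧
    (∀ n : ℕ, 1 ≤ n → ∀ t : ℝ, 0 < t →
      crit.real {ω | t * (n : ℝ) ^ (2 / 3 : ℝ) ≤ (visits n ω : ℝ)} ≤
        C * Real.exp (-(t ^ 3 / C))) ∧
    (∀ n : ℕ, 1 ≤ n → ∀ t : ℝ, 1 ≤ t → t ≤ (n : ℝ) ^ (1 / 3 : ℝ) →
      Real.exp (-(C * t ^ 3)) ≤
        crit.real {ω | t * (n : ℝ) ^ (2 / 3 : ℝ) ≤ (visits n ω : ℝ)}) := by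
  obtain ⟨C, hC, h1, h2, h3⟩ := H334HI.visits Pool.Agent.H160R2.SA.arSharp
  have hcrit : crit = H974.bondLaw H974.hlf := rfl
  refine ⟨C, hC, ?_, ?_, ?_, ?_⟩
  · intro n
    have e : visits n = H334HI.NN H334HI.WE n := funext fun ω => visits_eq n ω
    rw [e]
    exact H334HI.NN_meas H334HI.WE_meas n
  · intro k n hk hkn
    obtain ⟨a, b⟩ := h1 k n hk hkn
    simp only [visits_eq, hcrit]
    constructor
    · refine le_trans (le_of_eq ?_) a
      rw [div_pow]
      generalize (((n : ℝ) / k) ^ (2 / 3 : ℝ)) ^ k = x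
      rw [div_eq_mul_inv, mul_comm]
    · refine b.trans (le_of_eq ?_)
      rw [mul_pow]
  · intro n hn t ht
    simp only [visits_eq, hcrit]
    exact h2 n hn t ht
  · intro n hn t ht htn
    simp only [visits_eq, hcrit]
    exact h3 n hn t ht htn

end Pool.Agent.Results.MP_fe58d8_pr.BoundaryVisits
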