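import Pool.Agent.H67GF.Half2

/-!
Critical bond percolation on the square lattice (`p = 1/2`) in the upper half-plane: the probability
that the exploration path comes within a given distance of a given face, compared with the one-point
estimate of chordal `SLE(6)`, on all scales.

The boundary points `(i, 0)`, `i ∈ I`, are wired, where `I = [a, b]` or `I = (-∞, b]`, and the faces
below the rest of the boundary are wired in the dual lattice. The exploration path (which starts
between `b` and `b + 1` and ends between `a - 1` and `a`, or at infinity) runs between the wired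
cluster and the dual-wired cluster: it passes between the vertex `v` and the face `f` when `v` is a
corner of `f` which belongs to the wired cluster and `f` belongs to the dual-wired cluster.

For chordal `SLE(6)` in the upper half-plane from `0` to infinity, the probability that the curve
comes within distance `ρ` of a point `z` of the closed upper half-plane is comparable with
`(ρ / (Im z + ρ)) ^ (1/4) * (sin (arg (z + i ρ))) ^ (1/3)`. For `ρ ≤ Im z` this is comparable with
`ρ ^ (1/4)` times the Green's function `(Im z) ^ (-1/4) * (sin (arg z)) ^ (1/3)`, and for a point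
`z = x` of the boundary with `(ρ / (|x| + ρ)) ^ (1/3)`. We prove the same estimate for the
exploration path of a half-line, for all points and at all distances from a single lattice face to
infinity. For intervals we prove it for all faces and at all distances up to half of the distance
to the boundary. The constants are absolute.
-/

set_option autoImplicit false

namespace Pool.Agent.Results.MP_fe58d8_pr.GreensFunction

open MeasureTheory Filter Topology

/-- The square lattice: two points of `ℤ²` are adjacent when they differ by one in exactly one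
coordinate. -/
def Z2 : SimpleGraph (ℤ × ℤ) where
  Adj u v := |u.1 - v.1| + |u.2 - v.2| = 1
  symm := ⟨fun u v h => by rw [abs_sub_comm v.1, abs_sub_comm v.2]; exact h⟩
  loopless := ⟨fun u h => by simp at h⟩

/-- Critical bond percolation: every edge of the square lattice is open (`true`) with
probability `1/2`, independently of the other edges. -/
noncomputable def crit : Measure (Z2.edgeSet → Bool) :=
  Measure.infinitePi (fun _ => ProbabilityTheory.bernoulliMeasure true false
    ⟨1/2, by norm_num, by norm_num⟩)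

/-- The graph of the open edges with both endpoints in the closed upper half-plane. -/
def openGraph (ω : Z2.edgeSet → Bool) : SimpleGraph (ℤ × ℤ) :=
  SimpleGraph.fromEdgeSet {e | (∃ h : e ∈ Z2.edgeSet, ω ⟨e, h⟩ = true) ∧ ∀ v ∈ e, 0 ≤ v.2}

/-- The vertex `v` is joined to `I × {0}` by an open path of the closed upper half-plane. -/
def InCluster (I : Set ℤ) (ω : Z2.edgeSet → Bool) (v : ℤ × ℤ) : Prop :=
  ∃ i ∈ I, (openGraph ω).Reachable (i, 0) v

/-- The edge between the neighbours `u` and `v` is an edge of the closed upper half-plane which is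
closed, and which is not a wired boundary edge: its endpoints are not both in `I × {0}`. -/
def IsFree (I : Set ℤ) (ω : Z2.edgeSet → Bool) (u v : ℤ × ℤ) : Prop :=
  (0 ≤ u.2 ∧ 0 ≤ v.2) ∧ ¬ (openGraph ω).Adj u v ∧
    ¬ (u.2 = 0 ∧ v.2 = 0 ∧ u.1 ∈ I ∧ v.1 ∈ I)

/-- The graph of the dual-open edges. Its vertices are the faces of the square lattice, where the
face `(x, y)` is the unit square `[x, x + 1] × [y, y + 1]`. Two neighbouring faces are adjacent when
the edge which they have in common is a closed edge of the closed upper half-plane and is not a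
wired boundary edge. -/
def dualGraph (I : Set ℤ) (ω : Z2.edgeSet → Bool) : SimpleGraph (ℤ × ℤ) :=
  SimpleGraph.fromRel (fun f g =>
    (g = (f.1 + 1, f.2) ∧ IsFree I ω (f.1 + 1, f.2) (f.1 + 1, f.2 + 1)) ∨
    (g = (f.1, f.2 + 1) ∧ IsFree I ω (f.1, f.2 + 1) (f.1 + 1, f.2 + 1)))

/-- The face `f` belongs to the dual-wired cluster: it is joined by dual-open edges to one of the
faces `(k, -1)` just below the axis. -/
def InDualCluster (I : Set ℤ) (ω : Z2.edgeSet → Bool) (f : ℤ × ℤ) : Prop :=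
  ∃ k : ℤ, (dualGraph I ω).Reachable f (k, -1)

/-- The vertex `v` is a corner of the face `f`. -/
def IsCorner (f v : ℤ × ℤ) : Prop := (v.1 = f.1 ∨ v.1 = f.1 + 1) ∧ (v.2 = f.2 ∨ v.2 = f.2 + 1)

/-- The exploration path passes at the face `f`: the face belongs to the dual-wired cluster, and it
has a corner which belongs to the wired cluster. -/
def OnPath (I : Set ℤ) (f : ℤ × ℤ) (ω : Z2.edgeSet → Bool) : Prop :=
  InDualCluster I ω f ∧ ∃ v : ℤ × ℤ, IsCorner f v ∧ InCluster I ω v

/-- The exploration path comes within distance `r` of the face `f`, in the supremum norm: it passes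
at a face `g` of the upper half-plane whose coordinates differ from those of `f` by at most `r`. -/
def Near (I : Set ℤ) (f : ℤ × ℤ) (r : ℤ) (ω : Z2.edgeSet → Bool) : Prop :=
  ∃ g : ℤ × ℤ, |g.1 - f.1| ≤ r ∧ |g.2 - f.2| ≤ r ∧ 0 ≤ g.2 ∧ OnPath I g ω

/-- The probability that the exploration path comes within distance `r` of the face `f`. -/
noncomputable def prob (I : Set ℤ) (f : ℤ × ℤ) (r : ℤ) : ℝ := crit.real {ω | Near I f r ω}

/-- The exploration path from `0` to infinity on the lattice of mesh `δ` comes within distance `ρ`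
of `z`: it passes at a face of the upper half-plane whose lower left corner, scaled by `δ`, is at
distance at most `ρ` from `z`. -/
def NearPoint (δ ρ : ℝ) (z : ℂ) (ω : Z2.edgeSet → Bool) : Prop :=
  ∃ g : ℤ × ℤ, 0 ≤ g.2 ∧ OnPath (Set.Iic 0) g ω ∧
    ‖(δ : ℂ) * ((g.1 : ℂ) + (g.2 : ℂ) * Complex.I) - z‖ ≤ ρ

/-- The probability that the exploration path of mesh `δ` comes within distance `ρ` of `z`. -/
noncomputable def probPoint (δ ρ : ℝ) (z : ℂ) : ℝ := crit.real {ω | NearPoint δ ρ z ω}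

/-- The angle under which the interval `[a - 1/2, b + 1/2] × {0}` is seen from the centre
`(x + 1/2, y + 1/2)` of the face `(x, y)`. -/
noncomputable def angle (a b : ℤ) (f : ℤ × ℤ) : ℝ :=
  Real.arctan (((b : ℝ) - (f.1 : ℝ)) / ((f.2 : ℝ) + 1 / 2)) -
    Real.arctan (((a : ℝ) - 1 - (f.1 : ℝ)) / ((f.2 : ℝ) + 1 / 2))

/-- The angle under which the half-line `(-∞, b + 1/2] × {0}` is seen from the centre
`(x + 1/2, y + 1/2)` of the face `(x, y)`. -/
noncomputable def angleInf (b : ℤ) (f : ℤ × ℤ) : ℝ :=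
  Real.pi / 2 + Real.arctan (((b : ℝ) - (f.1 : ℝ)) / ((f.2 : ℝ) + 1 / 2))

/-- The one-point function of chordal `SLE(6)` in the upper half-plane (up to constants): the
probability that the curve comes within `s` times its height of a point seen under the angle `θ`. -/
noncomputable def onePoint (s θ : ℝ) : ℝ := s ^ ((1 : ℝ) / 4) * (Real.sin θ) ^ ((1 : ℝ) / 3)

/-! Translation to the library. -/

theorem adj_iff (ω : Z2.edgeSet → Bool) (u v : ℤ × ℤ) :
    (openGraph ω).Adj u v ↔ H974.Adj (H974.opn ω ∩ H67LP.HP) u v := by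
  have h1 : (openGraph ω).Adj u v ↔ (H974.openGraph ω).Adj u v ∧ 0 ≤ u.2 ∧ 0 ≤ v.2 := by
    unfold openGraph H974.openGraph
    rw [SimpleGraph.fromEdgeSet_adj, SimpleGraph.fromEdgeSet_adj]
    constructor
    · rintro ⟨⟨h, hV⟩, hne⟩
      exact ⟨⟨h, hne⟩, hV u (Sym2.mem_mk_left u v), hV v (Sym2.mem_mk_right u v)⟩
    · rintro ⟨⟨h, hne⟩, hu, hv⟩
      refine ⟨⟨h, ?_⟩, hne⟩
      intro w hw
      rcases Sym2.mem_iff.mp hw with rfl | rfl
      · exact hu
      · exact hv
  refine (h1.trans (and_congr_left' (H974.openGraph_adj ω u v))).trans ?_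
  constructor
  · rintro ⟨⟨e, he, hc⟩, hu, hv⟩
    refine ⟨e, ⟨he, ?_⟩, hc⟩
    rcases hc with ⟨h2, -⟩ | ⟨h2, -⟩
    · have : e.2.1 = u.2 := by rw [← h2]; rfl
      show 0 ≤ e.2.1
      omega
    · have : e.2.1 = v.2 := by rw [← h2]; rfl
      show 0 ≤ e.2.1
      omega
  · rintro ⟨e, ⟨he, hP⟩, hc⟩
    have hP' : 0 ≤ e.2.1 := hP
    refine ⟨⟨e, he, hc⟩, ?_⟩
    have hs : 0 ≤ (H974.src e).2 := hP'
    have ht : 0 ≤ (H974.tgt e).2 := by
      obtain ⟨x, y, _ | _⟩ := e
      · simp only [H974.tgt_false]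
        have : 0 ≤ y := hP'
        omega
      · simp only [H974.tgt_true]
        exact hP'
    rcases hc with ⟨h2, h3⟩ | ⟨h2, h3⟩
    · rw [← h2, ← h3]; exact ⟨hs, ht⟩
    · rw [← h2, ← h3]; exact ⟨ht, hs⟩

theorem reach_iff (ω : Z2.edgeSet → Bool) (u v : ℤ × ℤ) :
    (openGraph ω).Reachable u v ↔ H974.Reach (H974.opn ω ∩ H67LP.HP) u v := by
  rw [SimpleGraph.reachable_iff_reflTransGen]
  have : (openGraph ω).Adj = H974.Adj (H974.opn ω ∩ H67LP.HP) := by
    funext u v
    exact propext (adj_iff ω u v)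
  rw [this]
  rfl

theorem cluster_iff (I : Set ℤ) (ω : Z2.edgeSet → Bool) (v : ℤ × ℤ) :
    InCluster I ω v ↔ H67LP.CI I (H974.opn ω) v := by
  unfold InCluster H67LP.CI
  simp only [reach_iff]

theorem adj_h {G : Set H974.Edg} {x y : ℤ} :
    H974.Adj G (x, y) (x + 1, y) ↔ ((x, y, true) : H974.Edg) ∈ G := by
  constructor
  · rintro ⟨⟨p, q, _ | _⟩, he, hc⟩
    · simp only [H974.src_mk, H974.tgt_false, Prod.mk.injEq] at hc
      omega
    · simp only [H974.src_mk, H974.tgt_true, Prod.mk.injEq] at hc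
      have h1 : p = x := by omega
      have h2 : q = y := by omega
      rw [← h1, ← h2]
      exact he
  · intro h
    exact ⟨(x, y, true), h, Or.inl ⟨rfl, rfl⟩⟩

theorem adj_v {G : Set H974.Edg} {x y : ℤ} :
    H974.Adj G (x, y) (x, y + 1) ↔ ((x, y, false) : H974.Edg) ∈ G := by
  constructor
  · rintro ⟨⟨p, q, _ | _⟩, he, hc⟩
    · simp only [H974.src_mk, H974.tgt_false, Prod.mk.injEq] at hc
      have h1 : p = x := by omega
      have h2 : q = y := by omega
      rw [← h1, ← h2]
      exact he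
    · simp only [H974.src_mk, H974.tgt_true, Prod.mk.injEq] at hc
      omega
  · intro h
    exact ⟨(x, y, false), h, Or.inl ⟨rfl, rfl⟩⟩

theorem free_h (I : Set ℤ) (ω : Z2.edgeSet → Bool) (x y : ℤ) :
    IsFree I ω (x, y) (x + 1, y) ↔
      ((x, y, true) : H974.Edg) ∈ H67GF.Cls I (H974.opn ω) := by
  unfold IsFree
  rw [adj_iff, adj_h]
  constructor
  · rintro ⟨⟨h0, -⟩, h1, h2⟩
    refine ⟨⟨fun h => h1 ⟨h, h0⟩, h0⟩, ?_⟩
    rintro ⟨⟨h3, -⟩, h4, h5⟩
    exact h2 ⟨h3, h3, h4, h5⟩
  · rintro ⟨⟨h1, h0⟩, h2⟩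
    refine ⟨⟨h0, h0⟩, fun h => h1 h.1, ?_⟩
    rintro ⟨h3, -, h4, h5⟩
    exact h2 ⟨⟨h3, rfl⟩, h4, h5⟩

theorem free_v (I : Set ℤ) (ω : Z2.edgeSet → Bool) (x y : ℤ) :
    IsFree I ω (x, y) (x, y + 1) ↔
      ((x, y, false) : H974.Edg) ∈ H67GF.Cls I (H974.opn ω) := by
  unfold IsFree
  rw [adj_iff, adj_v]
  constructor
  · rintro ⟨⟨h0, -⟩, h1, -⟩
    refine ⟨⟨fun h => h1 ⟨h, h0⟩, h0⟩, ?_⟩
    rintro ⟨⟨-, h3⟩, -⟩
    exact Bool.false_ne_true h3
  · rintro ⟨⟨h1, h0⟩, -⟩
    have h0' : 0 ≤ y := h0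
    refine ⟨⟨h0, by show 0 ≤ y + 1; omega⟩, fun h => h1 h.1, ?_⟩
    rintro ⟨h3, h4, -, -⟩
    have h3' : y = 0 := h3
    have h4' : y + 1 = 0 := h4
    omega

theorem dual_adj (I : Set ℤ) (ω : Z2.edgeSet → Bool) (f g : ℤ × ℤ) :
    (dualGraph I ω).Adj f g ↔ H974.DAdj (H67GF.Cls I (H974.opn ω)) f g := by
  have key : ∀ f g : ℤ × ℤ,
      ((g = (f.1 + 1, f.2) ∧ IsFree I ω (f.1 + 1, f.2) (f.1 + 1, f.2 + 1)) ∨
        (g = (f.1, f.2 + 1) ∧ IsFree I ω (f.1, f.2 + 1) (f.1 + 1, f.2 + 1))) ↔
      ∃ e ∈ H67GF.Cls I (H974.opn ω), H974.dsrc e = f ∧ H974.dtgt e = g := by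
    rintro ⟨x, y⟩ g
    simp only
    rw [free_v, free_h]
    constructor
    · rintro (⟨h1, h2⟩ | ⟨h1, h2⟩)
      · exact ⟨(x + 1, y, false), h2, by simp, by rw [h1]; rfl⟩
      · exact ⟨(x, y + 1, true), h2, by simp, by rw [h1]; rfl⟩
    · rintro ⟨⟨p, q, _ | _⟩, he, h1, h2⟩
      · simp only [H974.dsrc_false, Prod.mk.injEq] at h1
        obtain rfl : p = x + 1 := by omega
        obtain rfl : q = y := by omega
        exact Or.inl ⟨h2.symm, he⟩
      · simp only [H974.dsrc_true, Prod.mk.injEq] at h1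
        obtain rfl : p = x := by omega
        obtain rfl : q = y + 1 := by omega
        exact Or.inr ⟨h2.symm, he⟩
  unfold dualGraph
  rw [SimpleGraph.fromRel_adj, key f g, key g f]
  constructor
  · rintro ⟨-, ⟨e, he, h⟩ | ⟨e, he, h⟩⟩
    · exact ⟨e, he, Or.inl h⟩
    · exact ⟨e, he, Or.inr h⟩
  · rintro ⟨e, he, h⟩
    refine ⟨?_, ?_⟩
    · rintro rfl
      have h1 : H974.dsrc e = H974.dtgt e := by
        rcases h with h | h
        · rw [h.1, h.2]
        · rw [h.1, h.2]
      obtain ⟨p, q, _ | _⟩ := e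
      · simp at h1
      · simp at h1
    · rcases h with h | h
      · exact Or.inl ⟨e, he, h⟩
      · exact Or.inr ⟨e, he, h⟩

theorem dual_iff (I : Set ℤ) (ω : Z2.edgeSet → Bool) (f : ℤ × ℤ) :
    InDualCluster I ω f ↔ H67GF.DC I (H974.opn ω) f := by
  have h1 : (dualGraph I ω).Adj = H974.DAdj (H67GF.Cls I (H974.opn ω)) := by
    funext f g
    exact propext (dual_adj I ω f g)
  have h2 : ∀ f g : ℤ × ℤ, (dualGraph I ω).Reachable f g ↔
      H974.DReach (H67GF.Cls I (H974.opn ω)) f g := by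
    intro f g
    rw [SimpleGraph.reachable_iff_reflTransGen, h1]
    rfl
  unfold InDualCluster H67GF.DC
  simp only [h2]

theorem path_eq (I : Set ℤ) (x y : ℤ) : {ω | OnPath I (x, y) ω} = H67GF.PathE I x y := by
  ext ω
  show OnPath I (x, y) ω ↔ _
  unfold OnPath
  rw [dual_iff]
  simp only [cluster_iff]
  rfl

theorem near_eq (I : Set ℤ) (x y r : ℤ) : {ω | Near I (x, y) r ω} = H67GF.PathH I x y r := by
  ext ω
  constructor
  · rintro ⟨⟨x', y'⟩, h1, h2, h0, h3⟩
    rw [abs_le] at h1 h2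
    simp only at h0 h1 h2
    have h4 : ω ∈ {ω | OnPath I (x', y') ω} := h3
    rw [path_eq] at h4
    exact ⟨x', y', by omega, by omega, h0, h4⟩
  · rintro ⟨x', y', h1, h2, h0, h3⟩
    rw [← path_eq] at h3
    refine ⟨(x', y'), ?_, ?_, h0, h3⟩
    · rw [abs_le]
      simp only
      omega
    · rw [abs_le]
      simp only
      omega

theorem point_eq (δ ρ : ℝ) (z : ℂ) : {ω | NearPoint δ ρ z ω} = H67GF.NearH δ ρ z := by
  ext ω
  constructor
  · rintro ⟨⟨x', y'⟩, h0, h1, h2⟩
    have h4 : ω ∈ {ω | OnPath (Set.Iic 0) (x', y') ω} := h1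
    rw [path_eq] at h4
    exact ⟨x', y', h0, h4, h2⟩
  · rintro ⟨x', y', h0, h1, h2⟩
    rw [← path_eq] at h1
    exact ⟨(x', y'), h0, h1, h2⟩

theorem meas_point (δ ρ : ℝ) (z : ℂ) : MeasurableSet (H67GF.NearH δ ρ z) := by
  have e : H67GF.NearH δ ρ z = ⋃ x' : ℤ, ⋃ y' : ℤ, {_ω | 0 ≤ y'} ∩
      (H67GF.PathE (Set.Iic 0) x' y' ∩
        {_ω | ‖(δ : ℂ) * ((x' : ℂ) + (y' : ℂ) * Complex.I) - z‖ ≤ ρ}) := by
    ext ω
    simp only [Set.mem_iUnion, Set.mem_inter_iff]
    rfl
  rw [e]
  exact MeasurableSet.iUnion (fun x' => MeasurableSet.iUnion (fun y' =>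
    (MeasurableSet.const _).inter
      ((H67GF.meas_path _ x' y').inter (MeasurableSet.const _))))

theorem prob_eq (I : Set ℤ) (x y r : ℤ) :
    prob I (x, y) r = (H974.bondLaw H731C.half).real (H67GF.PathH I x y r) := by
  unfold prob
  rw [near_eq]
  rfl

theorem point_prob_eq (δ ρ : ℝ) (z : ℂ) :
    probPoint δ ρ z = (H974.bondLaw H731C.half).real (H67GF.NearH δ ρ z) := by
  unfold probPoint
  rw [point_eq]
  rfl

/-- The one-point estimate for the exploration path, on all scales, for critical bond percolation on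
the square lattice. There are constants `0 < c` and `0 < C` with the following properties.
For all intervals `[a, b]`, all faces `f = (x, y)` of the upper half-plane and all
`0 ≤ r ≤ (y + 1) / 2`, the probability that the exploration path comes within distance `r` of `f` is
comparable with `((r + 1) / (y + 1)) ^ (1/4) * (sin θ) ^ (1/3)`, where `θ` is the angle under which
the interval is seen from `f`. For all half-lines `(-∞, b]`, all `f` and all `r ≥ 0` it is
comparable with `((r + 1) / (y + r + 1)) ^ (1/4) * (sin θ) ^ (1/3)`, where `θ` is the angle under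
which the half-line is seen from `(x, y + r)`. In the last clause the wired half-line is `(-∞, 0]`,
`z` is any point of the closed upper half-plane and `ρ ≥ 2 δ`, where `δ` is the mesh: the
probability that the path comes within distance `ρ` of `z` is comparable with
`(ρ / (Im z + ρ)) ^ (1/4) * (sin (arg (z + i ρ))) ^ (1/3)`. -/
theorem result :
    ((∀ (I : Set ℤ) (f : ℤ × ℤ) (r : ℤ), MeasurableSet {ω | Near I f r ω}) ∧
      ∀ (δ ρ : ℝ) (z : ℂ), MeasurableSet {ω | NearPoint δ ρ z ω}) ∧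
    ∃ c C : ℝ, 0 < c ∧ 0 < C ∧
      (∀ (a b : ℤ) (f : ℤ × ℤ) (r : ℤ), a ≤ b → 0 ≤ f.2 → 0 ≤ r → 2 * r ≤ f.2 + 1 →
        c * onePoint (((r : ℝ) + 1) / ((f.2 : ℝ) + 1)) (angle a b f) ≤ prob (Set.Icc a b) f r ∧
        prob (Set.Icc a b) f r ≤
          C * onePoint (((r : ℝ) + 1) / ((f.2 : ℝ) + 1)) (angle a b f)) ∧
      (∀ (b : ℤ) (f : ℤ × ℤ) (r : ℤ), 0 ≤ f.2 → 0 ≤ r →
        c * onePoint (((r : ℝ) + 1) / ((f.2 : ℝ) + (r : ℝ) + 1)) (angleInf b (f.1, f.2 + r)) ≤
          prob (Set.Iic b) f r ∧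
        prob (Set.Iic b) f r ≤
          C * onePoint (((r : ℝ) + 1) / ((f.2 : ℝ) + (r : ℝ) + 1))
            (angleInf b (f.1, f.2 + r))) ∧
      (∀ (z : ℂ) (δ ρ : ℝ), 0 < δ → 2 * δ ≤ ρ → 0 ≤ z.im →
        c * onePoint (ρ / (z.im + ρ)) (z + (ρ : ℂ) * Complex.I).arg ≤ probPoint δ ρ z ∧
        probPoint δ ρ z ≤ C * onePoint (ρ / (z.im + ρ)) (z + (ρ : ℂ) * Complex.I).arg) := by
  refine ⟨⟨?_, ?_⟩, ?_⟩
  · rintro I ⟨x, y⟩ r
    rw [near_eq]
    exact H67GF.meas_pathH I x y r
  · intro δ ρ z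
    rw [point_eq]
    exact meas_point δ ρ z
  · obtain ⟨c, C, hc, hC, h1, h2, h3⟩ := H67GF.full_dist
    refine ⟨c, C, hc, hC, ?_, ?_, ?_⟩
    · rintro a b ⟨x, y⟩ r hab hy hr hry
      rw [prob_eq]
      unfold onePoint
      rw [← mul_assoc, ← mul_assoc]
      exact h1 a b x y r hab hy hr hry
    · rintro b ⟨x, y⟩ r hy hr
      rw [prob_eq]
      unfold onePoint
      rw [← mul_assoc, ← mul_assoc]
      exact h2 b x y r hy hr
    · intro z δ ρ hδ hρ hz
      rw [point_prob_eq]
      unfold onePoint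
      rw [← mul_assoc, ← mul_assoc]
      exact h3 z δ ρ hδ hρ hz

end Pool.Agent.Results.MP_fe58d8_pr.GreensFunction
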