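import Pool.Agent.H334HI.Mesh
import Pool.Agent.H160R2.SA.Arm

/-!
Critical bond percolation on the square lattice (`p = 1/2`) in the half-plane `y ≥ 1`, with the left
half `x ≤ 0` of the boundary line `y = 1` wired: the probability that the wired cluster contains a
vertex of each of `k` given disjoint intervals of the right half of the boundary line, for all `k`
and all intervals.

The exploration path which starts at the right end of the wired half-line is the common boundary of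
the wired cluster and of the dual clusters attached to the right half of the boundary line, so this
is the probability that it visits all the `k` intervals. For chordal `SLE(6)` from `0` to infinity
in the half-plane the probability of hitting the intervals `[a_j, b_j]`, `0 < a_1 < b_1 < a_2 < …`,
is of the order of the product of the `((b_j - a_j) / (b_j - a_{j-1})) ^ (1/3)`, `a_0 = 0`. The same
is proved here on the lattice, on all scales, down to single vertices.
-/

set_option autoImplicit false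

namespace Pool.Agent.Results.MP_fe58d8_pr.IntervalHits

open MeasureTheory Finset

/-- The square lattice: two points of `ℤ²` are adjacent when they differ by one in exactly one
coordinate. -/
def Z2 : SimpleGraph (ℤ × ℤ) where
  Adj u v := |u.1 - v.1| + |u.2 - v.2| = 1
  symm := ⟨fun u v h => by rw [abs_sub_comm v.1, abs_sub_comm v.2]; exact h⟩
  loopless := ⟨fun u h => by simp at h⟩

/-- Critical bond percolation: every edge of the square lattice is open (`true`) with
probability `1/2`, independently of the other edges. -/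
noncomputable def crit : Measure (Z2.edgeSet → Bool) :=
  Measure.infinitePi (fun _ => ProbabilityTheory.bernoulliMeasure true false
    ⟨1/2, by norm_num, by norm_num⟩)

/-- The graph of the open edges with both endpoints in the half-plane `y ≥ 1`. -/
def openGraph (ω : Z2.edgeSet → Bool) : SimpleGraph (ℤ × ℤ) :=
  SimpleGraph.fromEdgeSet
    {e | (∃ h : e ∈ Z2.edgeSet, ω ⟨e, h⟩ = true) ∧ ∀ v ∈ e, 1 ≤ v.2}

/-- The vertex `v` is joined to the boundary half-line `x ≤ 0`, `y = 1` by an open path of the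
half-plane. -/
def Wired (ω : Z2.edgeSet → Bool) (v : ℤ × ℤ) : Prop :=
  ∃ u : ℤ, u ≤ 0 ∧ (openGraph ω).Reachable (u, 1) v

/-- The wired cluster contains one of the boundary vertices `(p, 1), …, (p + l - 1, 1)`. -/
def Hits (ω : Z2.edgeSet → Bool) (p : ℤ) (l : ℕ) : Prop :=
  ∃ i : ℤ, p ≤ i ∧ i < p + l ∧ Wired ω (i, 1)

/-- The probability that the first `k` intervals are hit. -/
noncomputable def hit (p : ℕ → ℤ) (l : ℕ → ℕ) (k : ℕ) : ℝ :=
  crit.real {ω | ∀ j < k, Hits ω (p j) (l j)}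

/-- The left end of the previous interval (zero for the first one). -/
def prev (p : ℕ → ℤ) : ℕ → ℤ
  | 0 => 0
  | k + 1 => p k

/-- The same for intervals with real ends. -/
def prevR (a : ℕ → ℝ) : ℕ → ℝ
  | 0 => 0
  | k + 1 => a k

theorem prev_eq (p : ℕ → ℤ) (k : ℕ) : prev p k = H334HI.prv p k := by
  cases k <;> rfl

theorem prevR_eq (a : ℕ → ℝ) (k : ℕ) : prevR a k = H334HI.prvR a k := by
  cases k <;> rfl

theorem openGraph_adj (ω : Z2.edgeSet → Bool) (u v : ℤ × ℤ) :
    (openGraph ω).Adj u v ↔ H974.Adj (H974.opn ω ∩ TH976.dE TH976.DH) u v := by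
  have hvert : ∀ v : ℤ × ℤ, v ∈ TH976.DH ↔ 1 ≤ v.2 := fun v => Iff.rfl
  unfold openGraph
  rw [SimpleGraph.fromEdgeSet_adj]
  constructor
  · rintro ⟨⟨⟨h, hω⟩, hV⟩, hne⟩
    have hadj : (H974.openGraph ω).Adj u v := by
      unfold H974.openGraph
      rw [SimpleGraph.fromEdgeSet_adj]
      exact ⟨⟨h, hω⟩, hne⟩
    obtain ⟨e, he, hcase⟩ := (H974.openGraph_adj ω u v).mp hadj
    have hu : u ∈ TH976.DH := (hvert u).mpr (hV u (Sym2.mem_mk_left u v))
    have hv : v ∈ TH976.DH := (hvert v).mpr (hV v (Sym2.mem_mk_right u v))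
    refine ⟨e, ⟨he, ?_⟩, hcase⟩
    rcases hcase with ⟨h1, h2⟩ | ⟨h1, h2⟩
    · exact ⟨by rw [h1]; exact hu, by rw [h2]; exact hv⟩
    · exact ⟨by rw [h1]; exact hv, by rw [h2]; exact hu⟩
  · rintro ⟨e, ⟨he, hV⟩, hcase⟩
    have hadj : (H974.openGraph ω).Adj u v := (H974.openGraph_adj ω u v).mpr ⟨e, he, hcase⟩
    unfold H974.openGraph at hadj
    rw [SimpleGraph.fromEdgeSet_adj] at hadj
    refine ⟨⟨hadj.1, ?_⟩, hadj.2⟩
    intro w hw
    rw [← hvert]
    rcases Sym2.mem_iff.mp hw with rfl | rfl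
    · rcases hcase with ⟨h1, h2⟩ | ⟨h1, h2⟩
      · rw [← h1]; exact hV.1
      · rw [← h2]; exact hV.2
    · rcases hcase with ⟨h1, h2⟩ | ⟨h1, h2⟩
      · rw [← h2]; exact hV.2
      · rw [← h1]; exact hV.1

theorem reach (ω : Z2.edgeSet → Bool) (u v : ℤ × ℤ) : (openGraph ω).Reachable u v ↔
    H974.Reach (H974.opn ω ∩ TH976.dE TH976.DH) u v := by
  rw [SimpleGraph.reachable_iff_reflTransGen]
  have : (openGraph ω).Adj = H974.Adj (H974.opn ω ∩ TH976.dE TH976.DH) := by
    funext u v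
    exact propext (openGraph_adj ω u v)
  rw [this]
  rfl

theorem hit_eq (p : ℕ → ℤ) (l : ℕ → ℕ) (k : ℕ) :
    hit p l k = TH976.PD TH976.DH (H334HI.HS H334HI.LA (H334HI.IJ p l) k) := by
  have h : hit p l k = (H974.bondLaw H974.hlf).real {ω | ∀ j < k, Hits ω (p j) (l j)} := rfl
  rw [h]
  unfold TH976.PD H334HI.HS Hits Wired
  congr 1
  ext ω
  constructor
  · intro h1 j hj
    obtain ⟨i, hi1, hi2, u, hu, h2⟩ := h1 j hj
    exact ⟨(u, 1), ⟨rfl, hu⟩, (i, 1), ⟨rfl, hi1, hi2⟩, (reach ω (u, 1) (i, 1)).mp h2⟩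
  · intro h1 j hj
    obtain ⟨u, ⟨hu1, hu2⟩, i, ⟨hi1, hi2, hi3⟩, h2⟩ := h1 j hj
    have e1 : ((u.1, 1) : ℤ × ℤ) = u := by rw [← hu1]
    have e2 : ((i.1, 1) : ℤ × ℤ) = i := by rw [← hi1]
    refine ⟨i.1, hi2, hi3, u.1, hu2, ?_⟩
    rw [e1, e2]
    exact (reach ω u i).mpr h2

theorem cmp_iff {C a b : ℝ} (h : TH976.Cmp C a b) : C⁻¹ * b ≤ a ∧ a ≤ C * b := by
  have h0 := h.k0
  refine ⟨?_, h.l⟩
  rw [inv_mul_le_iff₀ h0]
  exact h.r

/-- **Hitting probabilities of `k` boundary intervals.** There is a constant `C` such that, for all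
disjoint intervals `[p j, p j + l j)`, `j < k`, of the right half of the boundary line, in their order
(`1 ≤ p 0`, `1 ≤ l j`, `p j + l j ≤ p (j + 1)`):
(1) given that the first `k` intervals are hit, the conditional probability of hitting the next one
is `(l k / (p k + l k - p (k - 1))) ^ (1/3)` up to the factor `C`, which does not depend on `k`;
(2) the probability of hitting the `k` intervals is the product of these quantities up to the factor
`C ^ k`;
(3) for real intervals `0 < a 0 < b 0 < a 1 < b 1 < …`, as soon as the mesh `ε` is small enough, the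
probability of hitting all the lattice intervals whose ends are within distance `2ε` of the
`a j, b j` is the product of the `((b j - a j) / (b j - a (j - 1))) ^ (1/3)`, up to the factor
`C ^ k`. -/
theorem result : ∃ C : ℝ, 1 ≤ C ∧
    (∀ (p : ℕ → ℤ) (l : ℕ → ℕ) (k : ℕ), 1 ≤ p 0 → (∀ j ≤ k, 1 ≤ l j) →
      (∀ j < k, p j + l j ≤ p (j + 1)) →
      C⁻¹ * (((l k : ℝ) / ((p k : ℝ) + l k - prev p k)) ^ (1 / 3 : ℝ) * hit p l k) ≤
        hit p l (k + 1) ∧
      hit p l (k + 1) ≤
        C * (((l k : ℝ) / ((p k : ℝ) + l k - prev p k)) ^ (1 / 3 : ℝ) * hit p l k)) ∧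
    (∀ (p : ℕ → ℤ) (l : ℕ → ℕ) (k : ℕ), (∀ j < k, 1 ≤ p j ∧ 1 ≤ l j) →
      (∀ j, j + 1 < k → p j + l j ≤ p (j + 1)) →
      (C ^ k)⁻¹ * ∏ j ∈ range k, ((l j : ℝ) / ((p j : ℝ) + l j - prev p j)) ^ (1 / 3 : ℝ) ≤
        hit p l k ∧
      hit p l k ≤
        C ^ k * ∏ j ∈ range k, ((l j : ℝ) / ((p j : ℝ) + l j - prev p j)) ^ (1 / 3 : ℝ)) ∧
    (∀ (k : ℕ) (a b : ℕ → ℝ), (∀ j < k, 0 < a j ∧ a j < b j) →
      (∀ j, j + 1 < k → b j < a (j + 1)) →
      ∃ ε₀ : ℝ, 0 < ε₀ ∧ ∀ ε : ℝ, 0 < ε → ε < ε₀ → ∀ (p : ℕ → ℤ) (l : ℕ → ℕ),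
        (∀ j < k, |ε * ((p j : ℝ) - 1 / 2) - a j| ≤ 2 * ε ∧
          |ε * ((p j : ℝ) + l j - 1 / 2) - b j| ≤ 2 * ε) →
        (C ^ k)⁻¹ * ∏ j ∈ range k, ((b j - a j) / (b j - prevR a j)) ^ (1 / 3 : ℝ) ≤
          hit p l k ∧
        hit p l k ≤
          C ^ k * ∏ j ∈ range k, ((b j - a j) / (b j - prevR a j)) ^ (1 / 3 : ℝ)) := by
  have hA : Pool.Agent.H389R2.CD.ArS := Pool.Agent.H160R2.SA.arSharp
  obtain ⟨C1, hC1, h1⟩ := H334HI.two hA
  obtain ⟨C2, hC2, h2⟩ := H334HI.main hA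
  have p1 : 0 < C1 := by linarith
  have p2 : 0 < C2 := by linarith
  set C := C1 + 4 * C2 with hC
  have l1 : C1 ≤ C := by linarith
  have l2 : C2 ≤ C := by linarith
  have l3 : 4 * C2 ≤ C := by linarith
  have C0 : 0 < C := by linarith
  refine ⟨C, by linarith, ?_, ?_, ?_⟩
  · intro p l k h0 hl hp
    obtain ⟨a, b⟩ := h1 p l k h0 hl hp
    rw [hit_eq, hit_eq, prev_eq]
    have y0 : 0 ≤ ((l k : ℝ) / ((p k : ℝ) + l k - H334HI.prv p k)) ^ (1 / 3 : ℝ) *
        TH976.PD TH976.DH (H334HI.HS H334HI.LA (H334HI.IJ p l) k) := by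
      apply mul_nonneg _ (TH976.PD_nonneg _ _)
      apply Real.rpow_nonneg
      obtain ⟨-, q1, -⟩ := H334HI.prv_lt (k := k) h0 hl hp
      have q1' : (H334HI.prv p k : ℝ) < p k := by exact_mod_cast q1
      have : (0 : ℝ) ≤ l k := by positivity
      apply div_nonneg this
      linarith
    have x0 : 0 ≤ TH976.PD TH976.DH (H334HI.HS H334HI.LA (H334HI.IJ p l) (k + 1)) :=
      TH976.PD_nonneg _ _
    refine ⟨?_, a.trans (mul_le_mul_of_nonneg_right l1 y0)⟩
    rw [inv_mul_le_iff₀ C0]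
    exact b.trans (mul_le_mul_of_nonneg_right l1 x0)
  · intro p l k hp hpl
    have t := h2 p l k hp hpl
    rw [hit_eq]
    simp only [prev_eq]
    exact cmp_iff (t.weaken (pow_le_pow_left₀ p2.le l2 _))
  · intro k a b ha hab
    have t := H334HI.mesh (P := fun p l k => hit p l k) (C := C2) (fun p l k hp hpl => by
      rw [hit_eq]
      exact h2 p l k hp hpl) ha hab
    obtain ⟨ε₀, hε, hh⟩ := mem_nhdsGT_iff_exists_Ioo_subset.mp t
    refine ⟨ε₀, hε, ?_⟩
    intro ε e1 e2 p l hpl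
    have t2 := hh ⟨e1, e2⟩ p l hpl
    simp only [prevR_eq]
    exact cmp_iff (t2.weaken (pow_le_pow_left₀ (by positivity) l3 _))

end Pool.Agent.Results.MP_fe58d8_pr.IntervalHits
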