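import Pool.Agent.H67LP.Lim

/-!
Critical bond percolation on the square lattice (`p = 1/2`) in the upper half-plane: the law of the
side on which the exploration path passes a given face, compared with Schramm's formula for the
left passage probability of chordal `SLE(6)`.

The boundary points `(i, 0)`, `i ∈ I`, are wired, where `I = [a, b]` or `I = (-∞, b]`. The
exploration path (which starts between `b` and `b + 1` and ends between `a - 1` and `a`, or at
infinity) is the common boundary of the wired cluster of `I` and of the dual clusters which are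
attached to the rest of the boundary. It leaves a face `f` on the wired side exactly when `f` is
surrounded by the wired cluster. If the path converges to chordal `SLE(6)`, then by Schramm's
formula the limit of this probability is
`S(θ) = ∫_0^θ sin(t)^(-2/3) dt / ∫_0^π sin(t)^(-2/3) dt`, where `θ` is the angle under which the
wired part of the boundary is seen from the face.

We prove that the probability is comparable with `S(θ)`, and that the probability of the
complementary event is comparable with `1 - S(θ)`, for all intervals and all faces, with absolute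
constants: on all scales, down to single lattice points, and arbitrarily close to the boundary.
-/

set_option autoImplicit false

namespace Pool.Agent.Results.MP_fe58d8_pr.LeftPassage

open MeasureTheory Filter Topology

/-- The square lattice: two points of `ℤ²` are adjacent when they differ by one in exactly one
coordinate. -/
def Z2 : SimpleGraph (ℤ × ℤ) where
  Adj u v := |u.1 - v.1| + |u.2 - v.2| = 1
  symm := ⟨fun u v h => by rw [abs_sub_comm v.1, abs_sub_comm v.2]; exact h⟩
  loopless := ⟨fun u h => by simp at h⟩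

/-- Critical bond percolation: every edge of the square lattice is open (`true`) with
probability `1/2`, independently of the other edges. -/
noncomputable def crit : Measure (Z2.edgeSet → Bool) :=
  Measure.infinitePi (fun _ => ProbabilityTheory.bernoulliMeasure true false
    ⟨1/2, by norm_num, by norm_num⟩)

/-- The graph of the open edges with both endpoints in the closed upper half-plane. -/
def openGraph (ω : Z2.edgeSet → Bool) : SimpleGraph (ℤ × ℤ) :=
  SimpleGraph.fromEdgeSet {e | (∃ h : e ∈ Z2.edgeSet, ω ⟨e, h⟩ = true) ∧ ∀ v ∈ e, 0 ≤ v.2}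

/-- The vertex `v` is joined to `I × {0}` by an open path of the closed upper half-plane. -/
def InCluster (I : Set ℤ) (ω : Z2.edgeSet → Bool) (v : ℤ × ℤ) : Prop :=
  ∃ i ∈ I, (openGraph ω).Reachable (i, 0) v

/-- The edge between the neighbours `u` and `v` belongs to the wired cluster of `I`: it is an open
edge of the cluster of `I × {0}`, or a boundary edge between two points of `I × {0}`. -/
def IsWall (I : Set ℤ) (ω : Z2.edgeSet → Bool) (u v : ℤ × ℤ) : Prop :=
  ((openGraph ω).Adj u v ∧ InCluster I ω u) ∨ (u.2 = 0 ∧ v.2 = 0 ∧ u.1 ∈ I ∧ v.1 ∈ I)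

/-- The graph of the faces of the square lattice. The face `(x, y)` is the unit square
`[x, x + 1] × [y, y + 1]`. Two neighbouring faces are adjacent when the edge which they have in
common does not belong to the wired cluster of `I`. -/
def faceGraph (I : Set ℤ) (ω : Z2.edgeSet → Bool) : SimpleGraph (ℤ × ℤ) :=
  SimpleGraph.fromRel (fun f g =>
    (g = (f.1 + 1, f.2) ∧ ¬ IsWall I ω (f.1 + 1, f.2) (f.1 + 1, f.2 + 1)) ∨
    (g = (f.1, f.2 + 1) ∧ ¬ IsWall I ω (f.1, f.2 + 1) (f.1 + 1, f.2 + 1)))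

/-- The face `f` is surrounded by the wired cluster of `I`: it cannot be joined to the faces
`(k, -1)` just below the axis by a path of faces which does not cross the wired cluster. -/
def Surrounded (I : Set ℤ) (f : ℤ × ℤ) (ω : Z2.edgeSet → Bool) : Prop :=
  ∀ k : ℤ, ¬ (faceGraph I ω).Reachable f (k, -1)

/-- The probability that the face `f` is surrounded by the wired cluster of `I`. -/
noncomputable def prob (I : Set ℤ) (f : ℤ × ℤ) : ℝ := crit.real {ω | Surrounded I f ω}

/-- The angle under which the interval `[a - 1/2, b + 1/2] × {0}` is seen from the centre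
`(x + 1/2, y + 1/2)` of the face `(x, y)`. -/
noncomputable def angle (a b : ℤ) (f : ℤ × ℤ) : ℝ :=
  Real.arctan (((b : ℝ) - (f.1 : ℝ)) / ((f.2 : ℝ) + 1 / 2)) -
    Real.arctan (((a : ℝ) - 1 - (f.1 : ℝ)) / ((f.2 : ℝ) + 1 / 2))

/-- The angle under which the half-line `(-∞, b + 1/2] × {0}` is seen from the centre
`(x + 1/2, y + 1/2)` of the face `(x, y)`. -/
noncomputable def angleInf (b : ℤ) (f : ℤ × ℤ) : ℝ :=
  Real.pi / 2 + Real.arctan (((b : ℝ) - (f.1 : ℝ)) / ((f.2 : ℝ) + 1 / 2))

/-- Schramm's formula for `κ = 6`: the probability that chordal `SLE(6)` in the upper half-plane,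
from `0` to infinity, leaves a point with argument `θ` on its left side. -/
noncomputable def schramm (θ : ℝ) : ℝ :=
  (∫ t in (0 : ℝ)..θ, (Real.sin t) ^ (-(2 / 3) : ℝ)) /
    ∫ t in (0 : ℝ)..Real.pi, (Real.sin t) ^ (-(2 / 3) : ℝ)

/-- `p` is comparable with `s`, and `1 - p` is comparable with `1 - s`. -/
def Comparable (c C p s : ℝ) : Prop :=
  (c * s ≤ p ∧ p ≤ C * s) ∧ (c * (1 - s) ≤ 1 - p ∧ 1 - p ≤ C * (1 - s))

/-! Translation to the library. -/

theorem adj_iff (ω : Z2.edgeSet → Bool) (u v : ℤ × ℤ) :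
    (openGraph ω).Adj u v ↔ H974.Adj (H974.opn ω ∩ H67LP.HP) u v := by
  have h1 : (openGraph ω).Adj u v ↔ (H974.openGraph ω).Adj u v ∧ 0 ≤ u.2 ∧ 0 ≤ v.2 := by
    unfold openGraph H974.openGraph
    rw [SimpleGraph.fromEdgeSet_adj, SimpleGraph.fromEdgeSet_adj]
    constructor
    · rintro ⟨⟨h, hV⟩, hne⟩
      exact ⟨⟨h, hne⟩, hV u (Sym2.mem_mk_left u v), hV v (Sym2.mem_mk_right u v)⟩
    · rintro ⟨⟨h, hne⟩, hu, hv⟩
      refine ⟨⟨h, ?_⟩, hne⟩
      intro w hw
      rcases Sym2.mem_iff.mp hw with rfl | rfl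
      · exact hu
      · exact hv
  refine (h1.trans (and_congr_left' (H974.openGraph_adj ω u v))).trans ?_
  constructor
  · rintro ⟨⟨e, he, hc⟩, hu, hv⟩
    refine ⟨e, ⟨he, ?_⟩, hc⟩
    rcases hc with ⟨h2, -⟩ | ⟨h2, -⟩
    · have : e.2.1 = u.2 := by rw [← h2]; rfl
      show 0 ≤ e.2.1
      omega
    · have : e.2.1 = v.2 := by rw [← h2]; rfl
      show 0 ≤ e.2.1
      omega
  · rintro ⟨e, ⟨he, hP⟩, hc⟩
    have hP' : 0 ≤ e.2.1 := hP
    refine ⟨⟨e, he, hc⟩, ?_⟩
    have hs : 0 ≤ (H974.src e).2 := hP'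
    have ht : 0 ≤ (H974.tgt e).2 := by
      obtain ⟨x, y, _ | _⟩ := e
      · simp only [H974.tgt_false]
        have : 0 ≤ y := hP'
        omega
      · simp only [H974.tgt_true]
        exact hP'
    rcases hc with ⟨h2, h3⟩ | ⟨h2, h3⟩
    · rw [← h2, ← h3]; exact ⟨hs, ht⟩
    · rw [← h2, ← h3]; exact ⟨ht, hs⟩

theorem reach_iff (ω : Z2.edgeSet → Bool) (u v : ℤ × ℤ) :
    (openGraph ω).Reachable u v ↔ H974.Reach (H974.opn ω ∩ H67LP.HP) u v := by
  rw [SimpleGraph.reachable_iff_reflTransGen]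
  have : (openGraph ω).Adj = H974.Adj (H974.opn ω ∩ H67LP.HP) := by
    funext u v
    exact propext (adj_iff ω u v)
  rw [this]
  rfl

theorem cluster_iff (I : Set ℤ) (ω : Z2.edgeSet → Bool) (v : ℤ × ℤ) :
    InCluster I ω v ↔ H67LP.CI I (H974.opn ω) v := by
  unfold InCluster H67LP.CI
  simp only [reach_iff]

theorem adj_h {G : Set H974.Edg} {x y : ℤ} :
    H974.Adj G (x, y) (x + 1, y) ↔ ((x, y, true) : H974.Edg) ∈ G := by
  constructor
  · rintro ⟨⟨p, q, _ | _⟩, he, hc⟩
    · simp only [H974.src_mk, H974.tgt_false, Prod.mk.injEq] at hc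
      omega
    · simp only [H974.src_mk, H974.tgt_true, Prod.mk.injEq] at hc
      have h1 : p = x := by omega
      have h2 : q = y := by omega
      rw [← h1, ← h2]
      exact he
  · intro h
    exact ⟨(x, y, true), h, Or.inl ⟨rfl, rfl⟩⟩

theorem adj_v {G : Set H974.Edg} {x y : ℤ} :
    H974.Adj G (x, y) (x, y + 1) ↔ ((x, y, false) : H974.Edg) ∈ G := by
  constructor
  · rintro ⟨⟨p, q, _ | _⟩, he, hc⟩
    · simp only [H974.src_mk, H974.tgt_false, Prod.mk.injEq] at hc
      have h1 : p = x := by omega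
      have h2 : q = y := by omega
      rw [← h1, ← h2]
      exact he
    · simp only [H974.src_mk, H974.tgt_true, Prod.mk.injEq] at hc
      omega
  · intro h
    exact ⟨(x, y, false), h, Or.inl ⟨rfl, rfl⟩⟩

theorem wall_h (I : Set ℤ) (ω : Z2.edgeSet → Bool) (x y : ℤ) :
    IsWall I ω (x, y) (x + 1, y) ↔
      ((x, y, true) : H974.Edg) ∈ H67LP.Wall I (H974.opn ω) := by
  unfold IsWall
  rw [adj_iff, adj_h, cluster_iff]
  constructor
  · rintro (⟨⟨h1, h2⟩, h3⟩ | ⟨h1, -, h3, h4⟩)
    · exact ⟨h2, Or.inl ⟨h1, h3⟩⟩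
    · have h1' : y = 0 := h1
      exact ⟨by show 0 ≤ y; omega, Or.inr ⟨h1, rfl, h3, h4⟩⟩
  · rintro ⟨h0, ⟨h1, h2⟩ | ⟨h1, -, h3, h4⟩⟩
    · exact Or.inl ⟨⟨h1, h0⟩, h2⟩
    · exact Or.inr ⟨h1, h1, h3, h4⟩

theorem wall_v (I : Set ℤ) (ω : Z2.edgeSet → Bool) (x y : ℤ) :
    IsWall I ω (x, y) (x, y + 1) ↔
      ((x, y, false) : H974.Edg) ∈ H67LP.Wall I (H974.opn ω) := by
  unfold IsWall
  rw [adj_iff, adj_v, cluster_iff]
  constructor
  · rintro (⟨⟨h1, h2⟩, h3⟩ | ⟨h1, h2, -, -⟩)
    · exact ⟨h2, Or.inl ⟨h1, h3⟩⟩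
    · have h1' : y = 0 := h1
      have h2' : y + 1 = 0 := h2
      omega
  · rintro ⟨h0, ⟨h1, h2⟩ | ⟨-, h1, -, -⟩⟩
    · exact Or.inl ⟨⟨h1, h0⟩, h2⟩
    · simp at h1

theorem face_adj (I : Set ℤ) (ω : Z2.edgeSet → Bool) (f g : ℤ × ℤ) :
    (faceGraph I ω).Adj f g ↔ H974.DAdj (H67LP.Wall I (H974.opn ω))ᶜ f g := by
  have key : ∀ f g : ℤ × ℤ,
      ((g = (f.1 + 1, f.2) ∧ ¬ IsWall I ω (f.1 + 1, f.2) (f.1 + 1, f.2 + 1)) ∨
        (g = (f.1, f.2 + 1) ∧ ¬ IsWall I ω (f.1, f.2 + 1) (f.1 + 1, f.2 + 1))) ↔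
      ∃ e ∈ (H67LP.Wall I (H974.opn ω))ᶜ, H974.dsrc e = f ∧ H974.dtgt e = g := by
    rintro ⟨x, y⟩ g
    simp only
    rw [wall_v, wall_h]
    constructor
    · rintro (⟨h1, h2⟩ | ⟨h1, h2⟩)
      · exact ⟨(x + 1, y, false), h2, by simp, by rw [h1]; rfl⟩
      · exact ⟨(x, y + 1, true), h2, by simp, by rw [h1]; rfl⟩
    · rintro ⟨⟨p, q, _ | _⟩, he, h1, h2⟩
      · simp only [H974.dsrc_false, Prod.mk.injEq] at h1
        obtain rfl : p = x + 1 := by omega
        obtain rfl : q = y := by omega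
        exact Or.inl ⟨h2.symm, he⟩
      · simp only [H974.dsrc_true, Prod.mk.injEq] at h1
        obtain rfl : p = x := by omega
        obtain rfl : q = y + 1 := by omega
        exact Or.inr ⟨h2.symm, he⟩
  unfold faceGraph
  rw [SimpleGraph.fromRel_adj, key f g, key g f]
  constructor
  · rintro ⟨-, ⟨e, he, h⟩ | ⟨e, he, h⟩⟩
    · exact ⟨e, he, Or.inl h⟩
    · exact ⟨e, he, Or.inr h⟩
  · rintro ⟨e, he, h⟩
    refine ⟨?_, ?_⟩
    · rintro rfl
      have h1 : H974.dsrc e = H974.dtgt e := by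
        rcases h with h | h
        · rw [h.1, h.2]
        · rw [h.1, h.2]
      obtain ⟨p, q, _ | _⟩ := e
      · simp at h1
      · simp at h1
    · rcases h with h | h
      · exact Or.inl ⟨e, he, h⟩
      · exact Or.inr ⟨e, he, h⟩

theorem surr_iff (I : Set ℤ) (x y : ℤ) (ω : Z2.edgeSet → Bool) :
    Surrounded I (x, y) ω ↔ ¬ H67LP.Out I (H974.opn ω) (x, y) := by
  have h1 : (faceGraph I ω).Adj = H974.DAdj (H67LP.Wall I (H974.opn ω))ᶜ := by
    funext f g
    exact propext (face_adj I ω f g)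
  have h2 : ∀ f g : ℤ × ℤ, (faceGraph I ω).Reachable f g ↔
      H974.DReach (H67LP.Wall I (H974.opn ω))ᶜ f g := by
    intro f g
    rw [SimpleGraph.reachable_iff_reflTransGen, h1]
    rfl
  unfold Surrounded H67LP.Out
  constructor
  · intro h hO
    exact h 0 ((h2 _ _).mpr hO)
  · intro h k hk
    exact h (((h2 _ _).mp hk).trans (H67LP.low_all I (H974.opn ω) k 0))

theorem prob_eq (I : Set ℤ) (x y : ℤ) :
    prob I (x, y) = (H974.bondLaw H731C.half).real (H67LP.SurrE I x y) := by
  have h : {ω | Surrounded I (x, y) ω} = H67LP.SurrE I x y := by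
    ext ω
    exact surr_iff I x y ω
  unfold prob
  rw [h]
  rfl

/-- Schramm's left passage formula up to constants, for critical bond percolation on the square
lattice. There are constants `0 < c` and `0 < C` such that for all intervals `[a, b]` (and all
half-lines `(-∞, b]`) and for all faces `f` of the upper half-plane the probability that `f` is
surrounded by the wired cluster of the interval is comparable with `S(θ)`, and the probability that
it is not surrounded is comparable with `1 - S(θ)`, where `θ` is the angle under which the interval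
is seen from `f`. In the last clause the mesh `δ` is small, the wired half-line is `(-∞, 0]`, the
face contains `z / δ`, and `θ` is the argument of `z`. -/
theorem result :
    (∀ (I : Set ℤ) (f : ℤ × ℤ), MeasurableSet {ω | Surrounded I f ω}) ∧
    ∃ c C : ℝ, 0 < c ∧ 0 < C ∧
      (∀ (a b : ℤ) (f : ℤ × ℤ), a ≤ b → 0 ≤ f.2 →
        Comparable c C (prob (Set.Icc a b) f) (schramm (angle a b f))) ∧
      (∀ (b : ℤ) (f : ℤ × ℤ), 0 ≤ f.2 →
        Comparable c C (prob (Set.Iic b) f) (schramm (angleInf b f))) ∧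
      (∀ z : ℂ, 0 < z.im → ∀ᶠ δ in 𝓝[>] (0 : ℝ),
        Comparable c C (prob (Set.Iic 0) (⌊z.re / δ⌋, ⌊z.im / δ⌋)) (schramm z.arg)) := by
  constructor
  · rintro I ⟨x, y⟩
    have h : {ω | Surrounded I (x, y) ω} = H67LP.SurrE I x y := by
      ext ω
      exact surr_iff I x y ω
    rw [h, H67LP.surr_eq]
    exact (H67LP.meas_out I x y).compl
  · obtain ⟨c, C, hc, hC, h1, h2, h3⟩ := H67LP.main_all
    refine ⟨c, C, hc, hC, ?_, ?_, ?_⟩
    · rintro a b ⟨x, y⟩ hab hy
      obtain ⟨k1, k2, k3, k4⟩ := h1 a b x y hab hy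
      rw [prob_eq]
      exact ⟨⟨k1, k2⟩, k3, k4⟩
    · rintro b ⟨x, y⟩ hy
      obtain ⟨k1, k2, k3, k4⟩ := h2 b x y hy
      rw [prob_eq]
      exact ⟨⟨k1, k2⟩, k3, k4⟩
    · intro z hz
      filter_upwards [h3 z hz] with δ hδ
      obtain ⟨k1, k2, k3, k4⟩ := hδ
      rw [prob_eq]
      exact ⟨⟨k1, k2⟩, k3, k4⟩

end Pool.Agent.Results.MP_fe58d8_pr.LeftPassage
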